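import Mathlib

/-!
# Tail functions of tropicalized Gaussians: not every supermodular tropical polynomial occurs

Let `K` be a non-archimedean local field with residue field of size `q` and let `d ≥ 3`. We show
that the assertion of Q1 is false for `K` and `d`. The function
`φ(v) = max_I (∑_{i ∈ I} v_i - c_I)` with `c_I = [0 ∈ I and 2 ∈ I] + [1 ∈ I and 2 ∈ I]`
(integer supermodular coefficients, `c_∅ = 0`) is not the function
`φ_L(v) = - log_q P(V ≥ v)` for any lattice `L` in `K ^ d`; in fact it is not
`- log_q P(V ≥ v)` for any probability law on `K ^ d` whatsoever.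

We also show that every lattice has a Gaussian law (in the sense of the definition below).

Reason: `φ(e_2) = φ(e_0 + e_2) = φ(e_1 + e_2) = 1` would force the event `V ≥ e_2` to be contained
in the event `V ≥ e_0 + e_1` up to a null set, but `φ(e_0 + e_1) = 2 > 1`.
-/

set_option autoImplicit false
set_option linter.unusedSectionVars false

open MeasureTheory ValuativeRel

namespace Pool.Agent.Results.MP_90534d_pr.NotAllSupermodular

variable (K : Type*) [Field K] [ValuativeRel K] [TopologicalSpace K] [IsNonarchimedeanLocalField K]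

/-- The size `q` of the residue field. -/
noncomputable def resCard : ℕ := Nat.card 𝓀[K]

variable {K}

/-- `valGE n x` says `val(x) ≥ n`, where `val : K → ℤ ∪ {∞}` is the normalised valuation: here
`valueGroupWithZeroIsoInt K` is the unique ordered isomorphism of the value group of `K` (with
zero) and the multiplicatively written group `ℤ` (with zero), so that `val(x) = m` means that it
maps the value of `x` to `exp (- m)`. -/
def valGE (n : ℤ) (x : K) : Prop :=
  IsNonarchimedeanLocalField.valueGroupWithZeroIsoInt K (valuation K x) ≤ WithZero.exp (-n)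

/-- The lattice `A 𝒪 ^ d` in `K ^ d`. -/
def lattice {d : ℕ} (A : GL (Fin d) K) : Set (Fin d → K) :=
  {x | ∃ y : Fin d → K, (∀ i, y i ∈ 𝒪[K]) ∧ x = (A : Matrix (Fin d) (Fin d) K).mulVec y}

/-- `P` is the law of a full-dimensional Gaussian in `K ^ d` with lattice `L`: a Borel probability
measure on `K ^ d` carried by `L` and invariant under the translations by the elements of `L`
(so it is the normalised Haar measure of `L`). -/
def IsGaussianLaw {d : ℕ} (L : Set (Fin d → K)) (P : @Measure (Fin d → K) (borel _)) : Prop :=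
  letI : MeasurableSpace (Fin d → K) := borel _
  IsProbabilityMeasure P ∧ P Lᶜ = 0 ∧ ∀ a ∈ L, P.map (fun x => a + x) = P

/-- The function `v ↦ - log_q P(V ≥ v)`, where `V = (val X_1, ..., val X_d)` for `X` of law `P`. -/
noncomputable def negLogTail {d : ℕ} (P : @Measure (Fin d → K) (borel _)) (v : Fin d → ℤ) : ℝ :=
  - Real.logb (resCard K) (P {x | ∀ i, valGE (v i) (x i)}).toReal

/-- `φ` is the restriction to `ℤ ^ d` of a tropical polynomial supported on the cube `{0,1}^d`
with integer supermodular coefficients. -/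
def IsSupermodularTropical {d : ℕ} (φ : (Fin d → ℤ) → ℝ) : Prop :=
  ∃ c : Finset (Fin d) → ℤ, c ∅ = 0 ∧ (∀ I J, c I + c J ≤ c (I ∪ J) + c (I ∩ J)) ∧
    ∀ v, φ v = Finset.univ.sup' Finset.univ_nonempty
      (fun I : Finset (Fin d) => ((∑ i ∈ I, v i - c I : ℤ) : ℝ))

/-! ### Every lattice has a Gaussian law -/

lemma isOpen_ball (γ : ValueGroupWithZero K) (hγ : γ ≠ 0) :
    IsOpen {x : K | valuation K x ≤ γ} := by
  let S : AddSubgroup K :=
    { carrier := {x : K | valuation K x ≤ γ}
      zero_mem' := by simp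
      add_mem' := fun {x y} hx hy => (valuation K).map_add_le (g := γ) hx hy
      neg_mem' := fun {x} hx => by simpa using hx }
  have h : (S : Set K) ∈ nhds (0 : K) :=
    (IsValuativeTopology.hasBasis_nhds_zero' K).mem_iff.2 ⟨γ, hγ, fun x hx =>
      show valuation K x ≤ γ from le_of_lt hx⟩
  exact AddSubgroup.isOpen_of_mem_nhds S (g := 0) h

lemma isOpen_int : IsOpen (𝒪[K] : Set K) := isOpen_ball 1 one_ne_zero

lemma isOpen_valGE (n : ℤ) : IsOpen {x : K | valGE n x} := by
  have h := isOpen_ball ((IsNonarchimedeanLocalField.valueGroupWithZeroIsoInt K).symm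
    (WithZero.exp (-n))) (by simp)
  convert h using 1
  ext x
  simp only [Set.mem_ofPred_eq, valGE]
  exact ((IsNonarchimedeanLocalField.valueGroupWithZeroIsoInt K).toOrderIso.le_symm_apply).symm

lemma isCompact_int : IsCompact (𝒪[K] : Set K) :=
  IsNonarchimedeanLocalField.isCompact_closedBall K 1

lemma lattice_eq_image {d : ℕ} (A : GL (Fin d) K) : lattice A =
    (fun y => (A : Matrix (Fin d) (Fin d) K).mulVec y) '' Set.pi Set.univ (fun _ => (𝒪[K] : Set K)) := by
  ext x
  constructor
  · rintro ⟨y, hy, rfl⟩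
    exact ⟨y, fun i _ => hy i, rfl⟩
  · rintro ⟨y, hy, rfl⟩
    exact ⟨y, fun i => hy i trivial, rfl⟩

lemma lattice_eq_preimage {d : ℕ} (A : GL (Fin d) K) : lattice A =
    (fun y => ((A⁻¹ : GL (Fin d) K) : Matrix (Fin d) (Fin d) K).mulVec y) ⁻¹'
      Set.pi Set.univ (fun _ => (𝒪[K] : Set K)) := by
  ext x
  constructor
  · rintro ⟨y, hy, rfl⟩
    intro i _
    have : ((A⁻¹ : GL (Fin d) K) : Matrix (Fin d) (Fin d) K).mulVec
        ((A : Matrix (Fin d) (Fin d) K).mulVec y) = y := by
      rw [Matrix.mulVec_mulVec, ← Units.val_mul, inv_mul_cancel, Units.val_one, Matrix.one_mulVec]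
    simp only [this]
    exact hy i
  · intro hx
    refine ⟨_, fun i => hx i trivial, ?_⟩
    rw [Matrix.mulVec_mulVec, ← Units.val_mul, mul_inv_cancel, Units.val_one, Matrix.one_mulVec]

lemma isCompact_lattice {d : ℕ} (A : GL (Fin d) K) : IsCompact (lattice A) := by
  rw [lattice_eq_image]
  refine (isCompact_univ_pi fun _ => isCompact_int).image ?_
  exact Continuous.matrix_mulVec continuous_const continuous_id

lemma isOpen_lattice {d : ℕ} (A : GL (Fin d) K) : IsOpen (lattice A) := by
  rw [lattice_eq_preimage]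
  refine (isOpen_set_pi Set.finite_univ fun _ _ => isOpen_int).preimage ?_
  exact Continuous.matrix_mulVec continuous_const continuous_id

lemma zero_mem_lattice {d : ℕ} (A : GL (Fin d) K) : (0 : Fin d → K) ∈ lattice A :=
  ⟨0, fun _ => (𝒪[K]).zero_mem, by simp⟩

lemma add_mem_lattice_iff {d : ℕ} (A : GL (Fin d) K) {a : Fin d → K} (ha : a ∈ lattice A)
    (x : Fin d → K) : a + x ∈ lattice A ↔ x ∈ lattice A := by
  obtain ⟨y, hy, rfl⟩ := ha
  constructor
  · rintro ⟨z, hz, h⟩
    refine ⟨z - y, fun i => (𝒪[K]).sub_mem (hz i) (hy i), ?_⟩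
    rw [Matrix.mulVec_sub, ← h]
    abel
  · rintro ⟨z, hz, rfl⟩
    exact ⟨y + z, fun i => (𝒪[K]).add_mem (hy i) (hz i), by rw [Matrix.mulVec_add]⟩

theorem exists_gaussianLaw {d : ℕ} (A : GL (Fin d) K) : ∃ P, IsGaussianLaw (lattice A) P := by
  let _ : MeasurableSpace (Fin d → K) := borel _
  have _ : BorelSpace (Fin d → K) := ⟨rfl⟩
  set μ : Measure (Fin d → K) := Measure.addHaar with hμ
  have hc : μ (lattice A) ≠ ⊤ := (isCompact_lattice A).measure_lt_top.ne
  have hp : μ (lattice A) ≠ 0 := ((isOpen_lattice A).measure_pos μ ⟨0, zero_mem_lattice A⟩).ne'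
  have hm : MeasurableSet (lattice A) := (isOpen_lattice A).measurableSet
  refine ⟨(μ (lattice A))⁻¹ • μ.restrict (lattice A), ?_, ?_, ?_⟩
  · constructor
    rw [Measure.smul_apply, Measure.restrict_apply_univ, smul_eq_mul, ENNReal.inv_mul_cancel hp hc]
  · rw [Measure.smul_apply, Measure.restrict_apply hm.compl, Set.compl_inter_self, measure_empty,
      smul_zero]
  · intro a ha
    rw [Measure.map_smul]
    congr 1
    have hma : Measurable (fun x : Fin d → K => a + x) :=
      (continuous_const.add continuous_id).measurable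
    ext s hs
    rw [Measure.map_apply hma hs, Measure.restrict_apply (hma hs), Measure.restrict_apply hs]
    have : (fun x => a + x) ⁻¹' s ∩ lattice A = (fun x => a + x) ⁻¹' (s ∩ lattice A) := by
      ext x
      simp only [Set.mem_inter_iff, Set.mem_preimage, add_mem_lattice_iff A ha]
    rw [this, measure_preimage_add]

/-! ### The counterexample -/

/-- the coefficients -/
def cc {d : ℕ} (a b e : Fin d) (I : Finset (Fin d)) : ℤ :=
  (if a ∈ I ∧ e ∈ I then 1 else 0) + (if b ∈ I ∧ e ∈ I then 1 else 0)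

lemma cc_super {d : ℕ} (a b e : Fin d) (I J : Finset (Fin d)) :
    cc a b e I + cc a b e J ≤ cc a b e (I ∪ J) + cc a b e (I ∩ J) := by
  unfold cc
  simp only [Finset.mem_union, Finset.mem_inter]
  by_cases h1 : a ∈ I <;> by_cases h2 : b ∈ I <;> by_cases h3 : e ∈ I <;>
  by_cases h4 : a ∈ J <;> by_cases h5 : b ∈ J <;> by_cases h6 : e ∈ J <;>
  simp [h1, h2, h3, h4, h5, h6]

/-- the indicator function of a set of indices, as a vector -/
def vv {d : ℕ} (S : Finset (Fin d)) (i : Fin d) : ℤ := if i ∈ S then 1 else 0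

lemma sum_vv {d : ℕ} (S I : Finset (Fin d)) : ∑ i ∈ I, vv S i = ((I ∩ S).card : ℤ) := by
  unfold vv
  rw [Finset.sum_ite_mem]
  simp

/-- the tropical polynomial -/
noncomputable def trop {d : ℕ} (c : Finset (Fin d) → ℤ) (v : Fin d → ℤ) : ℝ :=
  Finset.univ.sup' Finset.univ_nonempty (fun I : Finset (Fin d) => ((∑ i ∈ I, v i - c I : ℤ) : ℝ))

lemma trop_eq {d : ℕ} (c : Finset (Fin d) → ℤ) (v : Fin d → ℤ) (m : ℤ)
    (h1 : ∀ I, ∑ i ∈ I, v i - c I ≤ m) (I₀ : Finset (Fin d)) (h2 : ∑ i ∈ I₀, v i - c I₀ = m) :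
    trop c v = m := by
  apply le_antisymm
  · refine Finset.sup'_le _ _ fun I _ => ?_
    exact_mod_cast h1 I
  · rw [← h2]
    exact Finset.le_sup' (fun I : Finset (Fin d) => ((∑ i ∈ I, v i - c I : ℤ) : ℝ))
      (Finset.mem_univ I₀)

/-- **Q1 is false for every non-archimedean local field and every `d ≥ 3`.** (1) Every lattice has
a Gaussian law. (2) Some restriction `φ` of a tropical polynomial supported on `{0,1}^d` with
integer supermodular coefficients is not `φ_L` for any lattice `L`; it is not even of the form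
`v ↦ - log_q P(V ≥ v)` for any probability law `P` on `K ^ d`. -/
theorem result (K : Type*) [Field K] [ValuativeRel K] [TopologicalSpace K]
    [IsNonarchimedeanLocalField K] (d : ℕ) (hd : 3 ≤ d) :
    (∀ A : GL (Fin d) K, ∃ P, IsGaussianLaw (lattice A) P) ∧
    ∃ φ : (Fin d → ℤ) → ℝ, IsSupermodularTropical φ ∧
      (¬ ∃ (A : GL (Fin d) K) (P : @Measure (Fin d → K) (borel _)),
        IsGaussianLaw (lattice A) P ∧ ∀ v, φ v = negLogTail P v) ∧
      (¬ ∃ P : @Measure (Fin d → K) (borel _), @IsProbabilityMeasure _ (borel _) P ∧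
        ∀ v, φ v = negLogTail P v) := by
  refine ⟨exists_gaussianLaw, ?_⟩
  have key : ∃ φ : (Fin d → ℤ) → ℝ, IsSupermodularTropical φ ∧
      (¬ ∃ P : @Measure (Fin d → K) (borel _), @IsProbabilityMeasure _ (borel _) P ∧
        ∀ v, φ v = negLogTail P v) := by
    set a : Fin d := ⟨0, by omega⟩ with ha
    set b : Fin d := ⟨1, by omega⟩ with hb
    set e : Fin d := ⟨2, by omega⟩ with he
    have hab : a ≠ b := by simp [ha, hb]
    have hae : a ≠ e := by simp [ha, he]
    have hbe : b ≠ e := by simp [hb, he]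
    refine ⟨trop (cc a b e), ⟨cc a b e, by simp [cc], cc_super a b e, fun _ => rfl⟩, ?_⟩
    rintro ⟨P, hP, h⟩
    let _ : MeasurableSpace (Fin d → K) := borel _
    have _ : BorelSpace (Fin d → K) := ⟨rfl⟩
    have _ : IsProbabilityMeasure P := hP
    set E : Finset (Fin d) → Set (Fin d → K) := fun S => {x | ∀ i, valGE (vv S i) (x i)} with hE
    have hmeas : ∀ S, MeasurableSet (E S) := by
      intro S
      have : E S = Set.pi Set.univ (fun i => {x : K | valGE (vv S i) x}) := by
        ext x; simp [hE]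
      rw [this]
      exact (isOpen_set_pi Set.finite_univ fun _ _ => isOpen_valGE _).measurableSet
    have hmono : ∀ m n : ℤ, m ≤ n → ∀ x : K, valGE n x → valGE m x := by
      intro m n hmn x hx
      unfold valGE at hx ⊢
      refine hx.trans ?_
      exact WithZero.exp_le_exp.2 (by omega)
    have hq : (1 : ℝ) < resCard K := by
      have : 1 < Nat.card 𝓀[K] := Finite.one_lt_card
      unfold resCard
      exact_mod_cast this
    have hval : ∀ S : Finset (Fin d), ∀ m : ℤ, m ≠ 0 → trop (cc a b e) (vv S) = m →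
        (P (E S)).toReal = (resCard K : ℝ) ^ (-(m : ℝ)) := by
      intro S m hm ht
      have h1 := h (vv S)
      rw [ht] at h1
      have h2 : Real.logb (resCard K) (P (E S)).toReal = -(m : ℝ) := by
        unfold negLogTail at h1
        rw [h1]
        simp [hE]
      have h3 : (P (E S)).toReal ≠ 0 := by
        intro h0
        rw [h0, Real.logb_zero] at h2
        apply hm
        have : (m : ℝ) = 0 := by linarith
        exact_mod_cast this
      have h4 : 0 < (P (E S)).toReal := lt_of_le_of_ne ENNReal.toReal_nonneg (Ne.symm h3)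
      rw [← h2, Real.rpow_logb (by linarith) hq.ne' h4]
    have t1 : trop (cc a b e) (vv {e}) = ((1 : ℤ) : ℝ) := by
      refine trop_eq _ _ 1 (fun I => ?_) {e} ?_
      · rw [sum_vv]
        unfold cc
        by_cases h1 : a ∈ I <;> by_cases h2 : b ∈ I <;> by_cases h3 : e ∈ I <;>
        simp [h1, h2, h3, Finset.inter_singleton_of_mem, Finset.inter_singleton_of_notMem]
      · rw [sum_vv]
        simp [cc, hae, hbe]
    have t2 : trop (cc a b e) (vv {a, e}) = ((1 : ℤ) : ℝ) := by
      refine trop_eq _ _ 1 (fun I => ?_) {e} ?_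
      · rw [sum_vv, Finset.inter_comm, ← Finset.filter_mem_eq_inter]
        unfold cc
        by_cases h1 : a ∈ I <;> by_cases h2 : b ∈ I <;> by_cases h3 : e ∈ I <;>
        simp [h1, h2, h3, Finset.filter_insert, Finset.filter_singleton, hae]
      · rw [sum_vv]
        simp [cc, hae, hbe]
    have t3 : trop (cc a b e) (vv {b, e}) = ((1 : ℤ) : ℝ) := by
      refine trop_eq _ _ 1 (fun I => ?_) {e} ?_
      · rw [sum_vv, Finset.inter_comm, ← Finset.filter_mem_eq_inter]
        unfold cc
        by_cases h1 : a ∈ I <;> by_cases h2 : b ∈ I <;> by_cases h3 : e ∈ I <;>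
        simp [h1, h2, h3, Finset.filter_insert, Finset.filter_singleton, hbe]
      · rw [sum_vv]
        simp [cc, hae, hbe]
    have t4 : trop (cc a b e) (vv {a, b}) = ((2 : ℤ) : ℝ) := by
      refine trop_eq _ _ 2 (fun I => ?_) {a, b} ?_
      · rw [sum_vv, Finset.inter_comm, ← Finset.filter_mem_eq_inter]
        unfold cc
        by_cases h1 : a ∈ I <;> by_cases h2 : b ∈ I <;> by_cases h3 : e ∈ I <;>
        simp [h1, h2, h3, Finset.filter_insert, Finset.filter_singleton, hab]
      · rw [sum_vv]
        simp [cc, hae.symm, hbe.symm, Finset.card_pair hab]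
    have p1 := hval _ 1 one_ne_zero t1
    have p2 := hval _ 1 one_ne_zero t2
    have p3 := hval _ 1 one_ne_zero t3
    have p4 := hval _ 2 two_ne_zero t4
    have s2 : E {a, e} ⊆ E {e} := by
      intro x hx i
      refine hmono _ _ ?_ _ (hx i)
      unfold vv
      by_cases hi : i = e <;> by_cases hi' : i = a <;> simp [hi, hi'] <;> split_ifs <;> simp
    have s3 : E {b, e} ⊆ E {e} := by
      intro x hx i
      refine hmono _ _ ?_ _ (hx i)
      unfold vv
      by_cases hi : i = e <;> by_cases hi' : i = b <;> simp [hi, hi'] <;> split_ifs <;> simp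
    have s4 : E {a, e} ∩ E {b, e} ⊆ E {a, b} := by
      intro x hx i
      by_cases hi : i = a
      · refine hmono _ _ ?_ _ (hx.1 i)
        unfold vv; simp [hi]
      · refine hmono _ _ ?_ _ (hx.2 i)
        unfold vv
        by_cases hi' : i = b <;> by_cases hi'' : i = e <;> simp [hi, hi', hi''] <;>
          split_ifs <;> simp
    have e12 : P (E {a, e}) = P (E {e}) := by
      rw [← ENNReal.toReal_eq_toReal_iff' (measure_ne_top _ _) (measure_ne_top _ _), p1, p2]
    have e13 : P (E {b, e}) = P (E {e}) := by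
      rw [← ENNReal.toReal_eq_toReal_iff' (measure_ne_top _ _) (measure_ne_top _ _), p1, p3]
    have n2 : P (E {e} \ E {a, e}) = 0 := by
      rw [measure_sdiff s2 (hmeas _).nullMeasurableSet (measure_ne_top _ _), e12, tsub_self]
    have n3 : P (E {e} \ E {b, e}) = 0 := by
      rw [measure_sdiff s3 (hmeas _).nullMeasurableSet (measure_ne_top _ _), e13, tsub_self]
    have hle : P (E {e}) ≤ P (E {a, b}) := by
      calc P (E {e}) ≤ P (E {a, b} ∪ ((E {e} \ E {a, e}) ∪ (E {e} \ E {b, e}))) := by
            apply measure_mono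
            intro x hx
            by_cases h1 : x ∈ E {a, e}
            · by_cases h2 : x ∈ E {b, e}
              · exact Or.inl (s4 ⟨h1, h2⟩)
              · exact Or.inr (Or.inr ⟨hx, h2⟩)
            · exact Or.inr (Or.inl ⟨hx, h1⟩)
        _ ≤ P (E {a, b}) + P ((E {e} \ E {a, e}) ∪ (E {e} \ E {b, e})) := measure_union_le _ _
        _ ≤ P (E {a, b}) + (P (E {e} \ E {a, e}) + P (E {e} \ E {b, e})) := by
            gcongr; exact measure_union_le _ _
        _ = P (E {a, b}) := by rw [n2, n3]; simp
    have hle' := ENNReal.toReal_mono (measure_ne_top _ _) hle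
    rw [p1, p4] at hle'
    have hlt : (resCard K : ℝ) ^ (-((2 : ℤ) : ℝ)) < (resCard K : ℝ) ^ (-((1 : ℤ) : ℝ)) := by
      apply Real.rpow_lt_rpow_of_exponent_lt hq
      push_cast; norm_num
    linarith
  obtain ⟨φ, h1, h2⟩ := key
  exact ⟨φ, h1, fun ⟨A, P, hP, h⟩ => h2 ⟨P, hP.1, h⟩, h2⟩

end Pool.Agent.Results.MP_90534d_pr.NotAllSupermodular
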